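import Pool.Agent.W2helper5.KA.Stm3

set_option autoImplicit false

namespace Pool.Agent.W2helper71.KA3

open TensorProduct Pool.Agent.W2helper5.KA3

theorem INJ : P_INJ := by
  intro K H D _ _ _ _ _ Sinv hS1 _ i j hD n e φ ψ h
  have hL : ∀ χ : H →ₗ[K] H, Θ Sinv i j e χ = TensorProduct.lift
      ((LinearMap.mul K D).compl₁₂ j i.toLinearMap)
      (∑ t, (e.coord t ∘ₗ Sinv) ⊗ₜ[K] χ (e t)) := by
    intro χ
    unfold Θ
    rw [map_sum]
    refine Finset.sum_congr rfl fun t _ => ?_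
    rw [TensorProduct.lift.tmul]
    rfl
  rw [hL, hL] at h
  have h1 := hD.bij.1 h
  apply e.ext
  intro m
  have h2 : ∀ χ : H →ₗ[K] H, (TensorProduct.lid K H) ((LinearMap.rTensor H
      (LinearMap.applyₗ (HopfAlgebra.antipode (R := K) (A := H) (e m)) :
        (H →ₗ[K] K) →ₗ[K] K)) (∑ t, (e.coord t ∘ₗ Sinv) ⊗ₜ[K] χ (e t))) = χ (e m) := by
    intro χ
    rw [map_sum, map_sum]
    have h3 : ∀ t, (TensorProduct.lid K H) ((LinearMap.rTensor H
        (LinearMap.applyₗ (HopfAlgebra.antipode (R := K) (A := H) (e m)) :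
          (H →ₗ[K] K) →ₗ[K] K)) ((e.coord t ∘ₗ Sinv) ⊗ₜ[K] χ (e t))) =
        (if m = t then (1 : K) else 0) • χ (e t) := by
      intro t
      rw [LinearMap.rTensor_tmul, TensorProduct.lid_tmul]
      congr 1
      show e.coord t (Sinv (HopfAlgebra.antipode (R := K) (A := H) (e m))) = _
      have h4 := LinearMap.congr_fun hS1 (e m)
      rw [LinearMap.comp_apply, LinearMap.id_apply] at h4
      rw [h4, Module.Basis.coord_apply, Module.Basis.repr_self, Finsupp.single_apply]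
    rw [Finset.sum_congr rfl fun t _ => h3 t]
    simp
  rw [← h2 φ, ← h2 ψ, h1]

end Pool.Agent.W2helper71.KA3
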